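import Pool.Agent.N36.UG.Rep

/-!
# Groups of order `p ^ n`: generators, class, and a small faithful module
-/

set_option autoImplicit false

namespace Pool.Agent.N36.UG

section grp
variable {G : Type} [Group G] {p n : ℕ}

theorem card_step (hp : p.Prime) [Finite G] (hG : Nat.card G = p ^ n) {H K : Subgroup G}
    (hlt : H < K) : ∃ i j, i < j ∧ j ≤ n ∧ Nat.card H = p ^ i ∧ Nat.card K = p ^ j := by
  have h1 : Nat.card H ∣ p ^ n := hG ▸ Subgroup.card_subgroup_dvd_card H
  have h2 : Nat.card K ∣ p ^ n := hG ▸ Subgroup.card_subgroup_dvd_card K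
  obtain ⟨i, _, hi⟩ := (Nat.dvd_prime_pow hp).1 h1
  obtain ⟨j, hj, hj'⟩ := (Nat.dvd_prime_pow hp).1 h2
  refine ⟨i, j, ?_, hj, hi, hj'⟩
  have h3 : Nat.card H < Nat.card K := by
    rcases Nat.lt_or_ge (Nat.card H) (Nat.card K) with h | h
    · exact h
    · exact absurd (Subgroup.eq_of_le_of_card_ge hlt.le h) hlt.ne
  rw [hi, hj'] at h3
  exact (Nat.pow_lt_pow_iff_right hp.one_lt).1 h3

theorem exists_gens (hp : p.Prime) [Finite G] (hG : Nat.card G = p ^ n) :
    ∃ a : Fin n → G, Subgroup.closure (Set.range a) = ⊤ := by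
  have key : ∀ k, ∃ a : Fin k → G, Subgroup.closure (Set.range a) = ⊤ ∨
      p ^ k ∣ Nat.card (Subgroup.closure (Set.range a)) := by
    intro k
    induction k with
    | zero => exact ⟨fun i => 1, Or.inr (by simp)⟩
    | succ k ih =>
      obtain ⟨a, ha⟩ := ih
      by_cases ht : Subgroup.closure (Set.range a) = ⊤
      · refine ⟨Fin.cons 1 a, Or.inl ?_⟩
        rw [eq_top_iff, ← ht]
        apply Subgroup.closure_mono
        rw [Fin.range_cons]
        exact Set.subset_insert _ _
      · obtain ⟨x, hx⟩ : ∃ x, x ∉ Subgroup.closure (Set.range a) := by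
          by_contra h
          push Not at h
          exact ht ((Subgroup.eq_top_iff' _).2 h)
        have hle : Subgroup.closure (Set.range a) < Subgroup.closure
            (Set.range (Fin.cons x a : Fin (k + 1) → G)) := by
          refine lt_of_le_of_ne ?_ ?_
          · apply Subgroup.closure_mono
            rw [Fin.range_cons]
            exact Set.subset_insert _ _
          · intro h
            apply hx
            rw [h]
            apply Subgroup.subset_closure
            exact ⟨0, rfl⟩
        obtain ⟨i, j, hij, _, hi, hj⟩ := card_step hp hG hle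
        refine ⟨Fin.cons x a, Or.inr ?_⟩
        rw [hj]
        have h1 := ha.resolve_left ht
        rw [hi, Nat.pow_dvd_pow_iff_le_right hp.one_lt] at h1
        exact pow_dvd_pow p (by omega)
  obtain ⟨a, ha⟩ := key n
  refine ⟨a, ?_⟩
  rcases ha with h | h
  · exact h
  · apply Subgroup.eq_top_of_card_eq
    apply Nat.dvd_antisymm (Subgroup.card_subgroup_dvd_card _)
    rw [hG]; exact h

theorem Fil_bot (hp : p.Prime) [Finite G] (hG : Nat.card G = p ^ n) : Fil G (n + 1) = ⊥ := by
  have := Fact.mk hp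
  have hnil : Group.IsNilpotent G := (IsPGroup.of_card hG).isNilpotent
  obtain ⟨m, hm⟩ := Subgroup.nilpotent_iff_lowerCentralSeries.1 hnil
  have hst : ∀ k, (⊤ : Subgroup G).lowerCentralSeries k = (⊤ : Subgroup G).lowerCentralSeries (k + 1) →
      (⊤ : Subgroup G).lowerCentralSeries k = ⊥ := by
    intro k hk
    have : ∀ j, (⊤ : Subgroup G).lowerCentralSeries k = (⊤ : Subgroup G).lowerCentralSeries (k + j) := by
      intro j
      induction j with
      | zero => rfl
      | succ j ih =>
        rw [← add_assoc, Subgroup.lowerCentralSeries_succ, ← ih, ← Subgroup.lowerCentralSeries_succ]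
        exact hk
    rw [this m, eq_bot_iff, ← hm]
    exact (⊤ : Subgroup G).lowerCentralSeries_antitone (by omega)
  have key : ∀ k, Nat.card ((⊤ : Subgroup G).lowerCentralSeries k) ∣ p ^ (n - k) := by
    intro k
    induction k with
    | zero =>
      rw [Subgroup.lowerCentralSeries_zero]
      simp [hG]
    | succ k ih =>
      by_cases h : (⊤ : Subgroup G).lowerCentralSeries k = (⊤ : Subgroup G).lowerCentralSeries (k + 1)
      · have := hst k h
        rw [← h, this]
        simp
      · have hlt : (⊤ : Subgroup G).lowerCentralSeries (k + 1) <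
            (⊤ : Subgroup G).lowerCentralSeries k :=
          lt_of_le_of_ne ((⊤ : Subgroup G).lowerCentralSeries_antitone (Nat.le_succ k)) (Ne.symm h)
        obtain ⟨i, j, hij, _, hi, hj⟩ := card_step hp hG hlt
        rw [hj, Nat.pow_dvd_pow_iff_le_right hp.one_lt] at ih
        rw [hi]
        exact pow_dvd_pow p (by omega)
  have := key n
  rw [Nat.sub_self, pow_zero, Nat.dvd_one] at this
  exact Subgroup.card_eq_one.1 this

/-- the number of words of length at most `n` over an alphabet with `n` letters -/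
def R (n : ℕ) : ℕ := ∑ k ∈ Finset.range (n + 1), n ^ k

theorem card_Wd (n : ℕ) : Fintype.card (Wd (n + 1) (Fin n)) = R n := by
  rw [Fintype.card_sigma, R, ← Fin.sum_univ_eq_sum_range]
  refine Finset.sum_congr rfl fun k _ => ?_
  simp

theorem R_le (n : ℕ) : R n ≤ (n + 1) ^ n := by
  rw [R, add_pow]
  refine Finset.sum_le_sum fun k hk => ?_
  simp only [one_pow, mul_one, Nat.cast_id]
  exact Nat.le_mul_of_pos_right _ (Nat.choose_pos (by simpa [Nat.lt_succ_iff] using hk))

/-- a primitive root -/
theorem exists_base (hp : p.Prime) (hn : n < p) :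
    ∃ d : ℕ, ∀ j, 2 ≤ j → j < n + 1 → IsCoprime ((d : ℤ) ^ j - d) p := by
  have := Fact.mk hp
  obtain ⟨g, hg⟩ := IsCyclic.exists_generator (α := (ZMod p)ˣ)
  have hord : orderOf g = p - 1 := by
    rw [orderOf_eq_card_of_forall_mem_zpowers hg, Nat.card_eq_fintype_card, ZMod.card_units]
  refine ⟨(g : ZMod p).val, fun j h1 h2 => ?_⟩
  have hnd : ¬ (p : ℤ) ∣ (((g : ZMod p).val : ℤ) ^ j - ((g : ZMod p).val : ℤ)) := by
    intro h
    rw [← ZMod.intCast_zmod_eq_zero_iff_dvd] at h
    push_cast at h
    rw [ZMod.natCast_zmod_val, sub_eq_zero] at h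
    have h3 : g ^ j = g ^ 1 := by
      apply Units.ext
      push_cast
      rw [pow_one]; exact h
    have h4 := pow_inj_mod.1 h3
    rw [hord, Nat.mod_eq_of_lt (show 1 < p - 1 by omega)] at h4
    have h5 : j % (p - 1) = 1 := h4
    have h6 : j ≤ p - 1 := by omega
    rcases Nat.lt_or_eq_of_le h6 with h | h
    · rw [Nat.mod_eq_of_lt h] at h5; omega
    · rw [h, Nat.mod_self] at h5; omega
  have h7 : IsCoprime (p : ℤ) (((g : ZMod p).val : ℤ) ^ j - ((g : ZMod p).val : ℤ)) :=
    (Prime.coprime_iff_not_dvd (Nat.prime_iff_prime_int.1 hp)).2 hnd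
  exact h7.symm

/-- **A faithful action on a small finite abelian group.** -/
theorem exists_module (hp : p.Prime) (hn : n < p) [Finite G] (hG : Nat.card G = p ^ n) :
    ∃ (W : Type) (_ : AddCommGroup W), Finite W ∧ Nat.card W ≤ p ^ (n * R n) ∧
      (∀ w : W, p ^ n • w = 0) ∧ ∃ ρ : G →* MulAut (Multiplicative W), Function.Injective ρ := by
  obtain ⟨a, ha⟩ := exists_gens hp hG
  have hM := Fil_bot hp hG
  obtain ⟨d, hd⟩ := exists_base hp hn
  have hexp : ∀ z : G, z ^ (p ^ n) = 1 := by
    intro z
    rw [← hG]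
    exact pow_card_eq_one'
  have : NeZero (p ^ n) := ⟨(pow_pos hp.pos n).ne'⟩
  obtain ⟨s, hs⟩ := WW_surj (n + 1) (p ^ n) hexp a
  have : Finite (WW (n + 1) a) := Finite.of_surjective s hs
  refine ⟨WW (n + 1) a, inferInstance, inferInstance, ?_, smul_WW (n + 1) (p ^ n) hexp a,
    act hM a ha, act_injective (Nat.succ_pos n) hM a ha d p hd n hexp⟩
  have h1 := Nat.card_le_card_of_surjective s hs
  rw [Nat.card_fun, Nat.card_eq_fintype_card (α := Fin (p ^ n)),
    Nat.card_eq_fintype_card (α := Wd (n + 1) (Fin n)), card_Wd, Fintype.card_fin, ← pow_mul] at h1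
  exact h1

end grp

end Pool.Agent.N36.UG
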