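import Mathlib

/-!
# Polynomial maps from a set with shifts to a filtered group (Lazard, Leibman)

The proof of `Q_all` is that of `Pool.Agent.Helper28.LCN.Seq` (sequences indexed by the integers),
for an arbitrary domain with a family of self-maps.
-/

set_option autoImplicit false

namespace Pool.Agent.N36.UG

open scoped commutatorElement

section defs

variable {X S G : Type} [Group G] (sh : S → X → X)

/-- difference of a function with values in a group, in the direction of the shift `s` -/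
def dd (s : S) (f : X → G) : X → G := fun x => f (sh s x) * (f x)⁻¹

/-- `Q sh Φ m i f`: for all `k ≤ m`, all `k`-fold differences of `f` have values in `Φ (i + k)` -/
def Q (Φ : ℕ → Subgroup G) : ℕ → ℕ → (X → G) → Prop
  | 0, i, f => ∀ n, f n ∈ Φ i
  | m + 1, i, f => (∀ n, f n ∈ Φ i) ∧ ∀ s, Q Φ m (i + 1) (dd sh s f)

/-- all `k`-fold differences have values in `N` -/
def Vn (N : Subgroup G) : ℕ → (X → G) → Prop
  | 0, f => ∀ x, f x ∈ N
  | k + 1, f => ∀ s, Vn N k (dd sh s f)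

theorem Q_drop (Φ : ℕ → Subgroup G) : ∀ (m i : ℕ) (f : X → G), Q sh Φ (m + 1) i f → Q sh Φ m i f
  | 0, _, _, h => h.1
  | m + 1, i, f, h => ⟨h.1, fun s => Q_drop Φ m (i + 1) (dd sh s f) (h.2 s)⟩

theorem Q_weak (Φ : ℕ → Subgroup G) (hanti : ∀ i, Φ (i + 1) ≤ Φ i) :
    ∀ (m i : ℕ) (f : X → G), Q sh Φ m (i + 1) f → Q sh Φ m i f
  | 0, i, _, h => fun n => hanti i (h n)
  | m + 1, i, f, h =>
    ⟨fun n => hanti i (h.1 n), fun s => Q_weak Φ hanti m (i + 1) (dd sh s f) (h.2 s)⟩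

theorem Q_weakk (Φ : ℕ → Subgroup G) (hanti : ∀ i, Φ (i + 1) ≤ Φ i) (m i : ℕ) (f : X → G) :
    ∀ k : ℕ, Q sh Φ m (i + k) f → Q sh Φ m i f
  | 0, h => h
  | k + 1, h => Q_weakk Φ hanti m i f k (Q_weak sh Φ hanti m (i + k) f h)

theorem Q_le (Φ : ℕ → Subgroup G) (hanti : ∀ i, Φ (i + 1) ≤ Φ i) (m : ℕ) {i j : ℕ} (hij : i ≤ j)
    (f : X → G) (h : Q sh Φ m j f) : Q sh Φ m i f := by
  obtain ⟨k, rfl⟩ := Nat.exists_eq_add_of_le hij
  exact Q_weakk sh Φ hanti m i f k h

theorem Q_val (Φ : ℕ → Subgroup G) (m i : ℕ) (f : X → G) (h : Q sh Φ m i f) (n : X) :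
    f n ∈ Φ i := by
  cases m with
  | zero => exact h n
  | succ m => exact h.1 n

/-- Lazard–Leibman: polynomial maps are closed under products, inverses and commutators. -/
theorem Q_all (Φ : ℕ → Subgroup G) (hanti : ∀ i, Φ (i + 1) ≤ Φ i)
    (hcomm : ∀ i j, ∀ a ∈ Φ i, ∀ b ∈ Φ j, ⁅a, b⁆ ∈ Φ (i + j)) (m : ℕ) :
    (∀ i f g, Q sh Φ m i f → Q sh Φ m i g → Q sh Φ m i (fun n => f n * g n)) ∧
    (∀ i f, Q sh Φ m i f → Q sh Φ m i (fun n => (f n)⁻¹)) ∧
    (∀ i j f g, Q sh Φ m i f → Q sh Φ m j g → Q sh Φ m (i + j) (fun n => ⁅f n, g n⁆)) := by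
  induction m with
  | zero =>
    refine ⟨fun i f g hf hg n => (Φ i).mul_mem (hf n) (hg n), fun i f hf n => (Φ i).inv_mem (hf n),
      fun i j f g hf hg n => hcomm i j _ (hf n) _ (hg n)⟩
  | succ m ih =>
    obtain ⟨ihm, ihi, ihc⟩ := ih
    refine ⟨?_, ?_, ?_⟩
    · intro i f g hf hg
      refine ⟨fun n => (Φ i).mul_mem (hf.1 n) (hg.1 n), fun s => ?_⟩
      have hu := hf.2 s
      have hv := hg.2 s
      have hf' := Q_drop sh Φ m i f hf
      have hc : Q sh Φ m (i + 1) (fun n => ⁅f n, dd sh s g n⁆) :=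
        Q_le sh Φ hanti m (by omega) _ (ihc i (i + 1) f (dd sh s g) hf' hv)
      have h1 := ihm (i + 1) _ _ hu hc
      have h2 := ihm (i + 1) _ _ h1 hv
      have he : dd sh s (fun n => f n * g n) =
          fun n => (dd sh s f n * ⁅f n, dd sh s g n⁆) * dd sh s g n := by
        funext n
        simp only [dd, commutatorElement_def]
        group
      rw [he]
      exact h2
    · intro i f hf
      refine ⟨fun n => (Φ i).inv_mem (hf.1 n), fun s => ?_⟩
      have hu := hf.2 s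
      have hf' := Q_drop sh Φ m i f hf
      have hui := ihi (i + 1) _ hu
      have hfi := ihi i _ hf'
      have hc : Q sh Φ m (i + 1) (fun n => ⁅(f n)⁻¹, (dd sh s f n)⁻¹⁆) :=
        Q_le sh Φ hanti m (by omega) _ (ihc i (i + 1) _ _ hfi hui)
      have h1 := ihm (i + 1) _ _ hc hui
      have he : dd sh s (fun n => (f n)⁻¹) =
          fun n => ⁅(f n)⁻¹, (dd sh s f n)⁻¹⁆ * (dd sh s f n)⁻¹ := by
        funext n
        simp only [dd, commutatorElement_def]
        group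
      rw [he]
      exact h1
    · intro i j f g hf hg
      refine ⟨fun n => hcomm i j _ (hf.1 n) _ (hg.1 n), fun s => ?_⟩
      have hu := hf.2 s
      have hv := hg.2 s
      have hf' := Q_drop sh Φ m i f hf
      have hg' := Q_drop sh Φ m j g hg
      have hvj := Q_weak sh Φ hanti m j _ hv
      have hvg := ihm j _ _ hvj hg'
      have hfvg := ihc i j _ _ hf' hvg
      have hfg := ihc i j _ _ hf' hg'
      have huvg := ihc (i + 1) j _ _ hu hvg
      have t1 : Q sh Φ m (i + j + 1) (fun n => ⁅dd sh s f n, ⁅f n, dd sh s g n * g n⁆⁆) :=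
        Q_le sh Φ hanti m (by omega) _ (ihc (i + 1) (i + j) _ _ hu hfvg)
      have t2 : Q sh Φ m (i + j + 1) (fun n => ⁅f n, dd sh s g n⁆) :=
        Q_le sh Φ hanti m (by omega) _ (ihc i (j + 1) _ _ hf' hv)
      have t3 : Q sh Φ m (i + j + 1) (fun n => ⁅dd sh s g n, ⁅f n, g n⁆⁆) :=
        Q_le sh Φ hanti m (by omega) _ (ihc (j + 1) (i + j) _ _ hv hfg)
      have t4 : Q sh Φ m (i + j + 1) (fun n => ⁅⁅f n, g n⁆, ⁅dd sh s f n, dd sh s g n * g n⁆⁆) :=
        Q_le sh Φ hanti m (by omega) _ (ihc (i + j) (i + 1 + j) _ _ hfg huvg)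
      have t5 : Q sh Φ m (i + j + 1) (fun n => ⁅dd sh s f n, dd sh s g n * g n⁆) :=
        Q_le sh Φ hanti m (by omega) _ huvg
      have h := ihm _ _ _ (ihm _ _ _ (ihm _ _ _ (ihm _ _ _ t1 t2) t3) t4) t5
      have he : dd sh s (fun n => ⁅f n, g n⁆) = fun n => (((⁅dd sh s f n, ⁅f n, dd sh s g n * g n⁆⁆ *
          ⁅f n, dd sh s g n⁆) * ⁅dd sh s g n, ⁅f n, g n⁆⁆) *
          ⁅⁅f n, g n⁆, ⁅dd sh s f n, dd sh s g n * g n⁆⁆) * ⁅dd sh s f n, dd sh s g n * g n⁆ := by
        funext n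
        simp only [dd, commutatorElement_def]
        group
      rw [he]
      exact h

theorem dd_const (s : S) (c : G) : dd sh s (fun _ => c) = fun _ => 1 := by
  funext n; simp [dd]

theorem Q_one (Φ : ℕ → Subgroup G) (m : ℕ) : ∀ i, Q sh Φ m i (fun _ => 1) := by
  induction m with
  | zero => intro i n; exact one_mem _
  | succ m ih =>
    intro i
    refine ⟨fun n => one_mem _, fun s => ?_⟩
    rw [dd_const]
    exact ih _

theorem Q_const (Φ : ℕ → Subgroup G) (m i : ℕ) (c : G) (hc : c ∈ Φ i) :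
    Q sh Φ m i (fun _ => c) := by
  cases m with
  | zero => exact fun _ => hc
  | succ m =>
    refine ⟨fun _ => hc, fun s => ?_⟩
    rw [dd_const]
    exact Q_one sh Φ m _

theorem Vn_of_Q (Φ : ℕ → Subgroup G) (k : ℕ) : ∀ (m i : ℕ) (f : X → G), k ≤ m → Q sh Φ m i f →
    Vn sh (Φ (i + k)) k f := by
  induction k with
  | zero => intro m i f _ hf x; exact Q_val sh Φ m i f hf x
  | succ k ih =>
    intro m i f hk hf s
    obtain ⟨m, rfl⟩ : ∃ m', m = m' + 1 := ⟨m - 1, by omega⟩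
    have := ih m (i + 1) _ (by omega) (hf.2 s)
    rwa [show i + 1 + k = i + (k + 1) by ring] at this

end defs

section pull

variable {X X' S S' G : Type} [Group G] (sh : S → X → X) (sh' : S' → X' → X')

theorem dd_comp (π : X' → X) (σ : S' → S) (h : ∀ s x, π (sh' s x) = sh (σ s) (π x)) (s : S')
    (f : X → G) : dd sh' s (fun x => f (π x)) = fun x => dd sh (σ s) f (π x) := by
  funext x; simp [dd, h]

theorem Q_comp (Φ : ℕ → Subgroup G) (π : X' → X) (σ : S' → S)
    (h : ∀ s x, π (sh' s x) = sh (σ s) (π x)) (m : ℕ) : ∀ (i : ℕ) (f : X → G), Q sh Φ m i f →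
    Q sh' Φ m i (fun x => f (π x)) := by
  induction m with
  | zero => intro i f hf x; exact hf _
  | succ m ih =>
    intro i f hf
    refine ⟨fun x => hf.1 _, fun s => ?_⟩
    rw [dd_comp sh sh' π σ h]
    exact ih _ _ (hf.2 _)

end pull

section filt

variable {G : Type} [Group G]

/-- the filtration `G, G, γ₂ G, γ₃ G, …` -/
def Fil (G : Type) [Group G] : ℕ → Subgroup G
  | 0 => ⊤
  | n + 1 => (⊤ : Subgroup G).lowerCentralSeries n

theorem lcs_comm_rot {H : Type} [Group H] (N H₁ H₂ H₃ : Subgroup H) [N.Normal]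
    (h1 : ⁅⁅H₂, H₃⁆, H₁⁆ ≤ N) (h2 : ⁅⁅H₃, H₁⁆, H₂⁆ ≤ N) : ⁅⁅H₁, H₂⁆, H₃⁆ ≤ N := by
  have key : ∀ K : Subgroup H, K ≤ N ↔ K.map (QuotientGroup.mk' N) = ⊥ := by
    intro K
    rw [Subgroup.map_eq_bot_iff, QuotientGroup.ker_mk']
  rw [key, Subgroup.map_commutator, Subgroup.map_commutator] at h1 h2 ⊢
  exact Subgroup.commutator_commutator_eq_bot_of_rotate h1 h2

theorem lcs_comm_top {H : Type} [Group H] (b : ℕ) : ∀ a : ℕ,
    ⁅(⊤ : Subgroup H).lowerCentralSeries a, (⊤ : Subgroup H).lowerCentralSeries b⁆ ≤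
      (⊤ : Subgroup H).lowerCentralSeries (a + b + 1) := by
  induction b with
  | zero => intro a; exact le_of_eq rfl
  | succ b ih =>
    intro a
    rw [Subgroup.commutator_comm, Subgroup.lowerCentralSeries_succ]
    refine lcs_comm_rot _ _ _ _ ?_ ?_
    · rw [Subgroup.commutator_comm (⊤ : Subgroup H), ← Subgroup.lowerCentralSeries_succ]
      have := ih (a + 1)
      rwa [show a + 1 + b + 1 = a + (b + 1) + 1 by omega] at this
    · rw [show a + (b + 1) + 1 = (a + b + 1) + 1 by omega, Subgroup.lowerCentralSeries_succ]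
      exact Subgroup.commutator_mono (ih a) le_rfl

theorem Fil_anti (i : ℕ) : Fil G (i + 1) ≤ Fil G i := by
  cases i with
  | zero => exact le_top
  | succ i => exact (⊤ : Subgroup G).lowerCentralSeries_antitone (Nat.le_succ i)

theorem Fil_one : Fil G 1 = ⊤ := rfl

theorem Fil_comm (i j : ℕ) : ∀ a ∈ Fil G i, ∀ b ∈ Fil G j, ⁅a, b⁆ ∈ Fil G (i + j) := by
  intro a ha b hb
  rcases Nat.eq_zero_or_pos i with rfl | hi
  · rcases Nat.eq_zero_or_pos j with rfl | hj
    · exact Subgroup.mem_top _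
    · obtain ⟨j, rfl⟩ : ∃ j', j = j' + 1 := ⟨j - 1, by omega⟩
      rw [Nat.zero_add]
      have h1 : ⁅a, b⁆ ∈ ⁅(⊤ : Subgroup G), (⊤ : Subgroup G).lowerCentralSeries j⁆ :=
        Subgroup.commutator_mem_commutator ha hb
      rw [Subgroup.commutator_comm, ← Subgroup.lowerCentralSeries_succ] at h1
      exact (⊤ : Subgroup G).lowerCentralSeries_antitone (Nat.le_succ j) h1
  · obtain ⟨i, rfl⟩ : ∃ i', i = i' + 1 := ⟨i - 1, by omega⟩
    rcases Nat.eq_zero_or_pos j with rfl | hj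
    · rw [Nat.add_zero]
      have h1 : ⁅a, b⁆ ∈ ⁅(⊤ : Subgroup G).lowerCentralSeries i, (⊤ : Subgroup G)⁆ :=
        Subgroup.commutator_mem_commutator ha hb
      rw [← Subgroup.lowerCentralSeries_succ] at h1
      exact (⊤ : Subgroup G).lowerCentralSeries_antitone (Nat.le_succ i) h1
    · obtain ⟨j, rfl⟩ : ∃ j', j = j' + 1 := ⟨j - 1, by omega⟩
      have h1 : ⁅a, b⁆ ∈ ⁅(⊤ : Subgroup G).lowerCentralSeries i,
          (⊤ : Subgroup G).lowerCentralSeries j⁆ :=
        Subgroup.commutator_mem_commutator ha hb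
      have h2 := lcs_comm_top j i h1
      have h3 : i + 1 + (j + 1) = (i + j + 1) + 1 := by ring
      rw [h3]
      exact h2

instance Fil_normal (i : ℕ) : (Fil G i).Normal := by
  cases i with
  | zero => exact (inferInstance : (⊤ : Subgroup G).Normal)
  | succ i => exact (inferInstance : ((⊤ : Subgroup G).lowerCentralSeries i).Normal)

variable {X S : Type} (sh : S → X → X)

theorem Q_mul {m i : ℕ} {f g : X → G} (hf : Q sh (Fil G) m i f) (hg : Q sh (Fil G) m i g) :
    Q sh (Fil G) m i (fun n => f n * g n) :=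
  (Q_all sh (Fil G) Fil_anti Fil_comm m).1 i f g hf hg

theorem Q_inv {m i : ℕ} {f : X → G} (hf : Q sh (Fil G) m i f) :
    Q sh (Fil G) m i (fun n => (f n)⁻¹) :=
  (Q_all sh (Fil G) Fil_anti Fil_comm m).2.1 i f hf

theorem Q_commutator {m i j : ℕ} {f g : X → G} (hf : Q sh (Fil G) m i f)
    (hg : Q sh (Fil G) m j g) : Q sh (Fil G) m (i + j) (fun n => ⁅f n, g n⁆) :=
  (Q_all sh (Fil G) Fil_anti Fil_comm m).2.2 i j f g hf hg

theorem Q_npow {m i : ℕ} {f : X → G} (hf : Q sh (Fil G) m i f) (k : ℕ) :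
    Q sh (Fil G) m i (fun n => (f n) ^ k) := by
  induction k with
  | zero => simpa using Q_one sh (Fil G) m i
  | succ k ih => simpa only [pow_succ] using Q_mul sh ih hf

theorem Q_zpow {m i : ℕ} {f : X → G} (hf : Q sh (Fil G) m i f) (k : ℤ) :
    Q sh (Fil G) m i (fun n => (f n) ^ k) := by
  cases k with
  | ofNat k => simpa using Q_npow sh hf k
  | negSucc k => simpa only [zpow_negSucc] using Q_inv sh (Q_npow sh hf (k + 1))

end filt

end Pool.Agent.N36.UG
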