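import Pool.Agent.N36.UG.Tang

/-!
# A faithful action on a small finite abelian group
-/

set_option autoImplicit false

namespace Pool.Agent.N36.UG

open scoped commutatorElement

section hom
variable {X S H H' : Type} [Group H] [Group H'] (sh : S → X → X)

theorem Vn_hom (l : H →* H') (k : ℕ) : ∀ F : X → H, Vn sh ⊥ k F → Vn sh ⊥ k (fun x => l (F x)) := by
  induction k with
  | zero =>
    intro F hF x
    have := hF x
    rw [Subgroup.mem_bot] at this ⊢
    simp only [this, map_one]
  | succ k ih =>
    intro F hF s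
    have := ih _ (hF s)
    have e : dd sh s (fun x => l (F x)) = fun x => l (dd sh s F x) := by
      funext x; simp [dd]
    rw [e]; exact this

end hom

section main
variable {G : Type} [Group G]

/-- the left translations of `G` -/
abbrev sg : G → G → G := fun h x => h * x

theorem Vn_pt {M : ℕ} (k : ℕ) : ∀ F : G → PP G M, (∀ n : ℤ, Vn sg ⊥ k (fun x => (F x).1 n)) →
    Vn sg ⊥ k F := by
  induction k with
  | zero =>
    intro F hF x
    rw [Subgroup.mem_bot]
    apply Subtype.ext
    funext n
    exact hF n x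
  | succ k ih =>
    intro F hF s
    exact ih _ (fun n => hF n s)

theorem Q_id (M : ℕ) : Q sg (Fil G) M 0 (fun x : G => x) := by
  cases M with
  | zero => exact fun _ => Subgroup.mem_top _
  | succ m =>
    refine ⟨fun n => Subgroup.mem_top _, fun s => ?_⟩
    have : dd sg s (fun x : G => x) = fun _ => s := by
      funext n; simp [dd]
    rw [this]
    exact Q_const sg _ m 1 _ (Subgroup.mem_top _)

theorem Vn_pw {M : ℕ} (hM : Fil G M = ⊥) : Vn sg ⊥ M (fun x : G => pw M x) := by
  apply Vn_pt
  intro n
  have h1 := Q_zpow sg (Q_id (G := G) M) n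
  have h2 := Vn_of_Q sg (Fil G) M M 0 _ le_rfl h1
  rw [zero_add, hM] at h2
  exact h2

variable (G) in
/-- the abelianization of the group of polynomial sequences, written additively -/
abbrev TT (M : ℕ) : Type := Additive (Abelianization (PP G M))

/-- the polynomial map from `G` to `TT G M` -/
def ff (M : ℕ) (x : G) : TT G M := Additive.ofMul (Abelianization.of (pw M x))

variable {A : Type} [AddCommGroup A]

/-- difference in the direction of the left translation by `h` -/
def D (h : G) (φ : G → A) : G → A := fun x => φ (h * x) - φ x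

/-- iterated differences; the first letter of the word acts first -/
def Dw {ι : Type} (a : ι → G) : List ι → (G → A) → (G → A)
  | [], φ => φ
  | i :: w, φ => Dw a w (D (a i) φ)

theorem Dw_append {ι : Type} (a : ι → G) (w : List ι) (i : ι) : ∀ φ : G → A,
    Dw a (w ++ [i]) φ = D (a i) (Dw a w φ) := by
  induction w with
  | nil => intro φ; rfl
  | cons j w ih => intro φ; exact ih _

theorem Dw_zero_of_Vn {ι C : Type} [CommGroup C] (a : ι → G) : ∀ (w : List ι) (F : G → C),
    Vn sg ⊥ w.length F → Dw a w (fun x => Additive.ofMul (F x)) = 0 := by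
  intro w
  induction w with
  | nil =>
    intro F hF
    funext x
    have := hF x
    rw [Subgroup.mem_bot] at this
    simp [Dw, this]
  | cons i w ih =>
    intro F hF
    have := ih _ (hF (a i))
    have e : (fun x => Additive.ofMul (dd sg (a i) F x)) =
        D (a i) (fun x => Additive.ofMul (F x)) := by
      funext x
      simp [dd, D, sub_eq_add_neg]
    rw [e] at this
    exact this

theorem Dw_ff {M : ℕ} (hM : Fil G M = ⊥) {ι : Type} (a : ι → G) (w : List ι) (hw : w.length = M) :
    Dw a w (ff (G := G) M) = 0 := by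
  have h1 := Vn_hom sg (Abelianization.of (G := PP G M)) M _ (Vn_pw hM)
  have h2 : Vn sg ⊥ w.length (fun x : G => Abelianization.of (pw M x)) := by
    rw [hw]; exact h1
  exact Dw_zero_of_Vn a w _ h2

/-- the words of length less than `M` in the alphabet `ι` -/
abbrev Wd (M : ℕ) (ι : Type) : Type := Σ k : Fin M, (Fin k → ι)

/-- the iterated differences of `ff` -/
def ew (M : ℕ) {ι : Type} (a : ι → G) (w : Wd M ι) : G → TT G M := Dw a (List.ofFn w.2) (ff M)

/-- the module generated by the iterated differences -/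
def WW (M : ℕ) {ι : Type} (a : ι → G) : Submodule ℤ (G → TT G M) :=
  Submodule.span ℤ (Set.range (ew M a))

theorem Dw_mem {M : ℕ} {ι : Type} (a : ι → G) (w : List ι) (hw : w.length < M) :
    Dw a w (ff M) ∈ WW M a := by
  refine Submodule.subset_span ⟨⟨⟨w.length, hw⟩, w.get⟩, ?_⟩
  simp only [ew]
  congr 1
  exact List.ofFn_get w

theorem ff_mem {M : ℕ} (hM0 : 0 < M) {ι : Type} (a : ι → G) : ff M ∈ WW M a :=
  Dw_mem a [] hM0

theorem shift_mem_gen {M : ℕ} (hM : Fil G M = ⊥) {ι : Type} (a : ι → G) (i : ι) (φ : G → TT G M)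
    (hφ : φ ∈ WW M a) : (fun x => φ (a i * x)) ∈ WW M a := by
  have key : ∀ φ ∈ WW M a, D (a i) φ ∈ WW M a := by
    intro φ hφ
    induction hφ using Submodule.span_induction with
    | mem φ h =>
      obtain ⟨w, rfl⟩ := h
      simp only [ew]
      rw [← Dw_append]
      have hl : (List.ofFn w.2 ++ [i]).length ≤ M := by
        simp only [List.length_append, List.length_ofFn, List.length_singleton]
        exact w.1.2
      rcases Nat.lt_or_eq_of_le hl with h | h
      · exact Dw_mem a _ h
      · rw [Dw_ff hM a _ h]; exact zero_mem _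
    | zero =>
      have : D (a i) (0 : G → TT G M) = 0 := by funext x; simp [D]
      rw [this]; exact zero_mem _
    | add x y _ _ hx hy =>
      have : D (a i) (x + y) = D (a i) x + D (a i) y := by
        funext t; simp only [D, Pi.add_apply]; abel
      rw [this]; exact add_mem hx hy
    | smul c x _ hx =>
      have : D (a i) (c • x) = c • D (a i) x := by
        funext t; simp only [D, Pi.smul_apply, smul_sub]
      rw [this]; exact Submodule.smul_mem _ _ hx
  have : (fun x => φ (a i * x)) = D (a i) φ + φ := by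
    funext x; simp [D]
  rw [this]
  exact add_mem (key φ hφ) hφ

/-- the elements whose translations preserve the module -/
def Stab [Finite G] (M : ℕ) {ι : Type} (a : ι → G) : Subgroup G where
  carrier := {g | ∀ φ ∈ WW M a, (fun x => φ (g * x)) ∈ WW M a}
  mul_mem' := by
    intro g h hg hh φ hφ
    have := hh _ (hg φ hφ)
    simpa only [mul_assoc] using this
  one_mem' := by
    intro φ hφ
    simpa using hφ
  inv_mem' := by
    intro g hg φ hφ
    have hp : ∀ n : ℕ, ∀ φ ∈ WW M a, (fun x => φ (g ^ n * x)) ∈ WW M a := by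
      intro n
      induction n with
      | zero => intro φ hφ; simpa using hφ
      | succ n ih =>
        intro φ hφ
        have := ih _ (hg φ hφ)
        simp only [pow_succ', mul_assoc]
        exact this
    have h1 := hp (orderOf g - 1) φ hφ
    have e : g ^ (orderOf g - 1) = g⁻¹ := by
      rw [eq_inv_iff_mul_eq_one, ← pow_succ, Nat.sub_add_cancel (orderOf_pos g), pow_orderOf_eq_one]
    rwa [e] at h1

theorem shift_mem [Finite G] {M : ℕ} (hM : Fil G M = ⊥) {ι : Type} (a : ι → G)
    (ha : Subgroup.closure (Set.range a) = ⊤) (g : G) (φ : G → TT G M)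
    (hφ : φ ∈ WW M a) : (fun x => φ (g * x)) ∈ WW M a := by
  have : Subgroup.closure (Set.range a) ≤ Stab M a := by
    rw [Subgroup.closure_le]
    rintro _ ⟨i, rfl⟩ φ hφ
    exact shift_mem_gen hM a i φ hφ
  rw [ha] at this
  exact this (Subgroup.mem_top g) φ hφ

/-- the action of `G` on the module -/
def act [Finite G] {M : ℕ} (hM : Fil G M = ⊥) {ι : Type} (a : ι → G)
    (ha : Subgroup.closure (Set.range a) = ⊤) : G →* MulAut (Multiplicative (WW M a)) where
  toFun g := AddEquiv.toMultiplicative
    { toFun := fun φ => ⟨fun x => φ.1 (g⁻¹ * x), shift_mem hM a ha _ _ φ.2⟩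
      invFun := fun φ => ⟨fun x => φ.1 (g * x), shift_mem hM a ha _ _ φ.2⟩
      left_inv := fun φ => by ext x; simp
      right_inv := fun φ => by ext x; simp
      map_add' := fun φ ψ => by ext x; simp }
  map_one' := by
    apply MulEquiv.ext
    intro φ
    apply Multiplicative.toAdd.injective
    apply Subtype.ext
    funext x
    change (Multiplicative.toAdd φ).1 ((1 : G)⁻¹ * x) = (Multiplicative.toAdd φ).1 x
    simp
  map_mul' g h := by
    apply MulEquiv.ext
    intro φ
    apply Multiplicative.toAdd.injective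
    apply Subtype.ext
    funext x
    change (Multiplicative.toAdd φ).1 ((g * h)⁻¹ * x) =
      (Multiplicative.toAdd φ).1 (h⁻¹ * (g⁻¹ * x))
    simp [mul_assoc]

theorem act_injective [Finite G] {M : ℕ} (hM0 : 0 < M) (hM : Fil G M = ⊥) {ι : Type} (a : ι → G)
    (ha : Subgroup.closure (Set.range a) = ⊤) (d p : ℕ)
    (hp : ∀ j, 2 ≤ j → j < M → IsCoprime ((d : ℤ) ^ j - d) p) (N : ℕ)
    (hN : ∀ z : G, z ^ (p ^ N) = 1) : Function.Injective (act hM a ha) := by
  rw [injective_iff_map_eq_one]
  intro g hg
  have h1 : act hM a ha g (Multiplicative.ofAdd ⟨ff M, ff_mem hM0 a⟩) =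
      Multiplicative.ofAdd ⟨ff M, ff_mem hM0 a⟩ := by rw [hg]; rfl
  have h2 : ff M (g⁻¹ * 1) = ff M (1 : G) := by
    have := congrArg (fun φ : Multiplicative (WW M a) => (Multiplicative.toAdd φ).1 1) h1
    exact this
  rw [mul_one] at h2
  have h3 : Abelianization.of (pw M g⁻¹) = 1 := by
    have h4 : Abelianization.of (pw M g⁻¹) = Abelianization.of (pw M (1 : G)) :=
      Additive.ofMul.injective h2
    rw [h4]
    have : pw M (1 : G) = 1 := by
      apply Subtype.ext; funext n; simp [pw]
    rw [this, map_one]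
  have h5 : pw M g⁻¹ ∈ commutator (PP G M) := by
    rw [← Abelianization.ker_of]
    exact h3
  have h6 := pw_not_mem hM d p hp g⁻¹ N (hN _) h5
  exact inv_eq_one.1 h6

theorem pow_TT (M : ℕ) (q : ℕ) (hq : ∀ z : G, z ^ q = 1) (t : TT G M) : q • t = 0 := by
  obtain ⟨t, rfl⟩ := Additive.ofMul.surjective t
  obtain ⟨g, rfl⟩ : ∃ g, Abelianization.of g = t := QuotientGroup.mk_surjective t
  rw [← ofMul_pow, ← map_pow]
  have : g ^ q = 1 := by
    apply Subtype.ext; funext n
    exact hq _
  rw [this, map_one, ofMul_one]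

theorem smul_WW (M : ℕ) (q : ℕ) (hq : ∀ z : G, z ^ q = 1) {ι : Type} (a : ι → G) (φ : WW M a) :
    q • φ = 0 := by
  apply Subtype.ext
  funext x
  exact pow_TT M q hq _

theorem WW_surj (M : ℕ) (q : ℕ) [NeZero q] (hq : ∀ z : G, z ^ q = 1) {ι : Type} [Fintype ι]
    (a : ι → G) : ∃ s : (Wd M ι → Fin q) → WW M a, Function.Surjective s := by
  classical
  refine ⟨fun c => ⟨∑ w, ((c w : ℕ) : ℤ) • ew M a w, Submodule.sum_mem _ fun w _ =>
    Submodule.smul_mem _ _ (Submodule.subset_span ⟨w, rfl⟩)⟩, ?_⟩
  rintro ⟨φ, hφ⟩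
  obtain ⟨c, hc⟩ := (Submodule.mem_span_range_iff_exists_fun ℤ).1 hφ
  have hqpos : (0 : ℤ) < q := by exact_mod_cast NeZero.pos q
  refine ⟨fun w => ⟨(c w % q).toNat, ?_⟩, ?_⟩
  · have h1 := Int.emod_nonneg (c w) hqpos.ne'
    have h2 := Int.emod_lt_of_pos (c w) hqpos
    omega
  · apply Subtype.ext
    simp only
    rw [← hc]
    refine Finset.sum_congr rfl fun w _ => ?_
    have h1 := Int.emod_nonneg (c w) hqpos.ne'
    have h2 : (((c w % q).toNat : ℕ) : ℤ) = c w % q := Int.toNat_of_nonneg h1
    rw [h2]
    have h3 : c w = c w % q + q * (c w / q) := (Int.emod_add_mul_ediv (c w) q).symm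
    conv_rhs => rw [h3, add_smul, mul_comm, mul_smul]
    have h4 : (q : ℤ) • ew M a w = 0 := by
      funext x
      have := pow_TT M q hq (ew M a w x)
      simpa using this
    rw [h4, smul_zero, add_zero]

end main

end Pool.Agent.N36.UG
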