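import Pool.Agent.N36.UG.Poly

/-!
# The sequence `n ↦ z ^ n` is not a product of commutators of polynomial sequences
-/

set_option autoImplicit false

namespace Pool.Agent.N36.UG

open scoped commutatorElement

/-- all `k`-fold differences of a function on the plane with values in an abelian group vanish -/
def Z {A : Type} [AddCommGroup A] : ℕ → (ℤ × ℤ → A) → Prop
  | 0, g => ∀ x, g x = 0
  | k + 1, g => ∀ v, Z k (fun x => g (x + v) - g x)

section zz
variable {A : Type} [AddCommGroup A]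

theorem Z_add (k : ℕ) : ∀ (g h : ℤ × ℤ → A), Z k g → Z k h → Z k (fun x => g x + h x) := by
  induction k with
  | zero => intro g h hg hh x; simp [hg x, hh x]
  | succ k ih =>
    intro g h hg hh v
    have := ih _ _ (hg v) (hh v)
    have e : (fun x => g (x + v) + h (x + v) - (g x + h x)) =
        fun x => (g (x + v) - g x) + (h (x + v) - h x) := by
      funext x; abel
    rw [e]; exact this

theorem Z_zero (k : ℕ) : Z k (fun _ => (0 : A)) := by
  induction k with
  | zero => intro x; rfl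
  | succ k ih => intro v; simpa using ih

theorem Z_sum {ι : Type} (k : ℕ) (s : Finset ι) (g : ι → ℤ × ℤ → A) (hg : ∀ i ∈ s, Z k (g i)) :
    Z k (fun x => ∑ i ∈ s, g i x) := by
  classical
  induction s using Finset.induction_on with
  | empty => simpa using Z_zero k
  | insert a s ha ih =>
    simp only [Finset.sum_insert ha]
    exact Z_add k _ _ (hg a (Finset.mem_insert_self _ _))
      (ih fun i hi => hg i (Finset.mem_insert_of_mem hi))

theorem Z_nsmul (k c : ℕ) (g : ℤ × ℤ → A) (hg : Z k g) : Z k (fun x => c • g x) := by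
  have := Z_sum k (Finset.range c) (fun _ => g) (fun _ _ => hg)
  simpa using this

theorem Z_dil (d k : ℕ) : ∀ (g : ℤ × ℤ → A), Z k g → Z k (fun x => g (d • x)) := by
  induction k with
  | zero => intro g hg x; exact hg _
  | succ k ih =>
    intro g hg v
    have := ih _ (hg (d • v))
    simpa only [smul_add] using this

theorem Z_theta (d k : ℕ) : ∀ (g : ℤ × ℤ → A), Z (k + 1) g →
    Z k (fun x => g (d • x) - (d ^ k : ℕ) • g x) := by
  induction k with
  | zero =>
    intro g hg x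
    have := hg (d • x - x) x
    simp only [add_sub_cancel] at this
    simpa using this
  | succ k ih =>
    intro g hg v
    have h1 := ih _ (hg v)
    have h2 := Z_sum k (Finset.range d)
      (fun (i : ℕ) (x : ℤ × ℤ) => (g (d • x + i • v + v) - g (d • x + i • v)) -
        (g (d • x + v) - g (d • x)))
      (fun i _ => Z_dil d k _ (hg v (i • v)))
    have h3 := Z_add k _ _ (Z_nsmul k d _ h1) h2
    convert h3 using 1
    funext x
    rw [Finset.sum_sub_distrib, Finset.sum_const, Finset.card_range]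
    have e : ∑ i ∈ Finset.range d, (g (d • x + i • v + v) - g (d • x + i • v)) =
        g (d • x + d • v) - g (d • x) := by
      have := Finset.sum_range_sub (fun i : ℕ => g (d • x + i • v)) d
      simp only [zero_smul, add_zero] at this
      rw [← this]
      refine Finset.sum_congr rfl fun i _ => ?_
      rw [succ_nsmul, add_assoc]
    rw [e]
    simp only [smul_add, pow_succ, mul_comm (d ^ k) d, mul_smul, smul_sub]
    abel

theorem Z_two (g : ℤ × ℤ → A) (hg : Z 2 g) (h1 : ∀ n, g (n, 0) = 0) (h2 : ∀ n, g (0, n) = 0) (x) :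
    g x = 0 := by
  have := hg (x.1, 0) (0, x.2) 0
  simp only [zero_add] at this
  have e : ((0, x.2) : ℤ × ℤ) + (x.1, 0) = x := by ext <;> simp
  rw [e, h1, h2, show (0 : ℤ × ℤ) = (0, 0) from rfl, h1] at this
  simpa using this

end zz

section main
variable {G : Type} [Group G]

/-- the shifts of the plane -/
abbrev sp : ℤ × ℤ → ℤ × ℤ → ℤ × ℤ := fun v x => x + v

/-- the shifts of the line -/
abbrev sl : ℤ → ℤ → ℤ := fun v x => x + v

/-- polynomial maps from the plane to `G` which are trivial on the axes and have values in `Γ i` -/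
structure Sg (M i : ℕ) (b : ℤ × ℤ → G) : Prop where
  q : Q sp (Fil G) M 0 b
  ax : ∀ n, b (n, 0) = 1
  ay : ∀ n, b (0, n) = 1
  v : ∀ x, b x ∈ Fil G i

theorem Sg.mul {M i : ℕ} {b c : ℤ × ℤ → G} (hb : Sg M i b) (hc : Sg M i c) :
    Sg M i (fun x => b x * c x) where
  q := Q_mul sp hb.q hc.q
  ax n := by simp [hb.ax, hc.ax]
  ay n := by simp [hb.ay, hc.ay]
  v x := mul_mem (hb.v x) (hc.v x)

theorem Sg.inv {M i : ℕ} {b : ℤ × ℤ → G} (hb : Sg M i b) : Sg M i (fun x => (b x)⁻¹) where
  q := Q_inv sp hb.q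
  ax n := by simp [hb.ax]
  ay n := by simp [hb.ay]
  v x := inv_mem (hb.v x)

theorem Sg.op {M i : ℕ} {b : ℤ × ℤ → G} (hb : Sg M i b) (d k : ℕ) :
    Sg M i (fun x => b (d • x) * (b x ^ k)⁻¹) where
  q := Q_mul sp (Q_comp sp sp (Fil G) (fun x => d • x) (fun v => d • v)
    (fun s x => by simp only [sp, smul_add]) M 0 b hb.q) (Q_inv sp (Q_npow sp hb.q k))
  ax n := by
    have : d • ((n, 0) : ℤ × ℤ) = (d • n, 0) := by simp
    simp only [this, hb.ax]; simp
  ay n := by
    have : d • ((0, n) : ℤ × ℤ) = (0, d • n) := by simp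
    simp only [this, hb.ay]; simp
  v x := mul_mem (hb.v _) (inv_mem (pow_mem (hb.v x) k))

instance centerAdd (H : Type) [Group H] : AddCommGroup (Additive (Subgroup.center H)) :=
  { (inferInstance : AddGroup (Additive (Subgroup.center H))) with
    add_comm := fun a b => by
      apply Additive.toMul.injective
      apply Subtype.ext
      exact Subgroup.mem_center_iff.1 (Additive.toMul b).2 _ }

/-- `β` is the function with values in the centre of `G / N` defined by `b` -/
def Rel (N : Subgroup G) [N.Normal] (b : ℤ × ℤ → G)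
    (β : ℤ × ℤ → Additive (Subgroup.center (G ⧸ N))) : Prop :=
  ∀ x, ((Additive.toMul (β x) : Subgroup.center (G ⧸ N)) : G ⧸ N) = (b x : G ⧸ N)

theorem Z_of_Vn (N : Subgroup G) [N.Normal] (k : ℕ) : ∀ (b : ℤ × ℤ → G)
    (β : ℤ × ℤ → Additive (Subgroup.center (G ⧸ N))), Rel N b β → Vn sp N k b → Z k β := by
  induction k with
  | zero =>
    intro b β h hb x
    have h1 := h x
    rw [(QuotientGroup.eq_one_iff (b x)).2 (hb x)] at h1
    apply Additive.toMul.injective
    exact Subtype.ext h1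
  | succ k ih =>
    intro b β h hb v
    refine ih (dd sp v b) _ ?_ (hb v)
    intro x
    have e : ((Additive.toMul (β (x + v) - β x) : Subgroup.center (G ⧸ N)) : G ⧸ N) =
        ((Additive.toMul (β (x + v)) : Subgroup.center (G ⧸ N)) : G ⧸ N) *
        ((Additive.toMul (β x) : Subgroup.center (G ⧸ N)) : G ⧸ N)⁻¹ := by
      rw [← div_eq_mul_inv]; rfl
    rw [e, h, h]; rfl

theorem exists_rel {M i : ℕ} {b : ℤ × ℤ → G} (hb : Sg M i b) :
    ∃ β, Rel (Fil G (i + 1)) b β := by
  have hc : ∀ x, (b x : G ⧸ Fil G (i + 1)) ∈ Subgroup.center (G ⧸ Fil G (i + 1)) := by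
    intro x
    rw [Subgroup.mem_center_iff]
    intro g
    obtain ⟨g, rfl⟩ := QuotientGroup.mk_surjective g
    rw [← QuotientGroup.mk_mul, ← QuotientGroup.mk_mul, QuotientGroup.eq]
    have h1 : ⁅(b x)⁻¹, g⁻¹⁆ ∈ Fil G (i + 1) :=
      Fil_comm i 1 _ (inv_mem (hb.v x)) _ (Subgroup.mem_top _)
    have e : (g * b x)⁻¹ * (b x * g) = ⁅(b x)⁻¹, g⁻¹⁆ := by
      rw [commutatorElement_def]; group
    rw [e]; exact h1
  exact ⟨fun x => Additive.ofMul ⟨_, hc x⟩, fun x => rfl⟩

theorem lower {M i : ℕ} (d p : ℕ) (hp : ∀ j, 2 ≤ j → j ≤ i → IsCoprime ((d : ℤ) ^ j - d) p)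
    (z : G) : ∀ j : ℕ, 1 ≤ j → j ≤ i → ∀ (b : ℤ × ℤ → G) (β : _) (r : ℤ), Sg M i b →
    Rel (Fil G (i + 1)) b β → Z (j + 1) β → IsCoprime r p → (∀ n : ℤ, b (n, n) = z ^ (r * n)) →
    ∃ (c : ℤ × ℤ → G) (r' : ℤ), Sg M (i + 1) c ∧ IsCoprime r' p ∧ ∀ n : ℤ, c (n, n) = z ^ (r' * n) := by
  intro j
  induction j with
  | zero => intro h; omega
  | succ j ih =>
    intro _ hj b β r hb hβ hZ hr hd
    rcases Nat.eq_zero_or_pos j with rfl | hjp
    · refine ⟨b, r, ⟨hb.q, hb.ax, hb.ay, fun x => ?_⟩, hr, hd⟩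
      have e1 : ∀ x, b x = 1 → β x = 0 := by
        intro x hx
        have := hβ x
        rw [hx] at this
        apply Additive.toMul.injective
        exact Subtype.ext this
      have h0 := Z_two β hZ (fun n => e1 _ (hb.ax n)) (fun n => e1 _ (hb.ay n)) x
      have h1 := hβ x
      rw [h0] at h1
      exact (QuotientGroup.eq_one_iff (b x)).1 h1.symm
    · have hb' := hb.op d (d ^ (j + 1))
      refine ih hjp (by omega) _ (fun x => β (d • x) - (d ^ (j + 1) : ℕ) • β x)
        (r * (d - d ^ (j + 1))) hb' ?_ (Z_theta d (j + 1) β hZ) ?_ ?_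
      · intro x
        have e : ((Additive.toMul (β (d • x) - (d ^ (j + 1) : ℕ) • β x) :
            Subgroup.center (G ⧸ Fil G (i + 1))) : G ⧸ Fil G (i + 1)) =
            ((Additive.toMul (β (d • x)) : Subgroup.center (G ⧸ Fil G (i + 1))) :
              G ⧸ Fil G (i + 1)) *
            (((Additive.toMul (β x) : Subgroup.center (G ⧸ Fil G (i + 1))) :
              G ⧸ Fil G (i + 1)) ^ (d ^ (j + 1) : ℕ))⁻¹ := by
          rw [← div_eq_mul_inv]; rfl
        rw [e, hβ, hβ]; rfl
      · refine IsCoprime.mul_left hr ?_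
        have := hp (j + 1) (by omega) hj
        have h2 := this.neg_left
        rwa [neg_sub] at h2
      · intro n
        have : d • ((n, n) : ℤ × ℤ) = (d * n, d * n) := by simp
        simp only [this, hd]
        rw [← zpow_natCast, ← zpow_mul, ← zpow_neg, ← zpow_add]
        congr 1; push_cast; ring

theorem key {M : ℕ} (hM : Fil G M = ⊥) (d p : ℕ)
    (hp : ∀ j, 2 ≤ j → j < M → IsCoprime ((d : ℤ) ^ j - d) p)
    (z : G) (N : ℕ) (hz : z ^ (p ^ N) = 1) (b : ℤ × ℤ → G) (hb : Sg M 1 b)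
    (hd : ∀ n : ℤ, b (n, n) = z ^ n) : z = 1 := by
  have main : ∀ i, 1 ≤ i → i ≤ M → ∃ (c : ℤ × ℤ → G) (r : ℤ), Sg M i c ∧ IsCoprime r p ∧
      ∀ n : ℤ, c (n, n) = z ^ (r * n) := by
    intro i
    induction i with
    | zero => intro h; omega
    | succ i ih =>
      intro _ hi
      rcases Nat.eq_zero_or_pos i with rfl | hip
      · exact ⟨b, 1, hb, isCoprime_one_left, by simpa using hd⟩
      · obtain ⟨c, r, hc, hr, hcd⟩ := ih hip (by omega)
        obtain ⟨β, hβ⟩ := exists_rel hc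
        have hV := Vn_of_Q sp (Fil G) (i + 1) M 0 c hi hc.q
        rw [zero_add] at hV
        exact lower d p (fun j h1 h2 => hp j h1 (by omega)) z i hip le_rfl c β r hc hβ
          (Z_of_Vn _ _ c β hβ hV) hr hcd
  rcases Nat.eq_zero_or_pos M with hM0 | hMp
  · subst hM0
    have : z ∈ Fil G 0 := Subgroup.mem_top _
    rw [hM] at this
    exact this
  obtain ⟨c, r, hc, hr, hcd⟩ := main M hMp le_rfl
  have h1 : z ^ r = 1 := by
    have := hcd 1
    rw [mul_one] at this
    rw [← this]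
    have h2 := hc.v (1, 1)
    rw [hM] at h2
    exact h2
  have h3 : IsCoprime r ((p : ℤ) ^ N) := hr.pow_right
  obtain ⟨u, v, huv⟩ := h3
  have h4 : z ^ ((p : ℤ) ^ N) = 1 := by
    have : ((p : ℤ) ^ N) = ((p ^ N : ℕ) : ℤ) := by push_cast; rfl
    rw [this, zpow_natCast]; exact hz
  calc z = z ^ (u * r + v * (p : ℤ) ^ N) := by rw [huv, zpow_one]
    _ = 1 := by rw [zpow_add, mul_comm u, mul_comm v, zpow_mul, zpow_mul, h1, h4]; simp

/-- the group of the polynomial sequences with value `1` at `0` -/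
def PP (G : Type) [Group G] (M : ℕ) : Subgroup (ℤ → G) where
  carrier := {g | Q sl (Fil G) M 0 g ∧ g 0 = 1}
  mul_mem' := by
    intro a b ha hb
    exact ⟨Q_mul sl ha.1 hb.1, by simp [ha.2, hb.2]⟩
  one_mem' := ⟨Q_one sl (Fil G) M 0, rfl⟩
  inv_mem' := by
    intro a ha
    exact ⟨Q_inv sl ha.1, by simp [ha.2]⟩

theorem Q_line (M : ℕ) (z : G) : Q sl (Fil G) M 0 (fun n => z ^ n) := by
  cases M with
  | zero => exact fun _ => Subgroup.mem_top _
  | succ m =>
    refine ⟨fun n => Subgroup.mem_top _, fun s => ?_⟩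
    have : dd sl s (fun j : ℤ => z ^ j) = fun _ => z ^ s := by
      funext n
      simp only [dd, sl]
      rw [← zpow_neg, ← zpow_add]
      congr 1; ring
    rw [this]
    exact Q_const sl _ m 1 _ (Subgroup.mem_top _)

/-- the sequence `n ↦ z ^ n` -/
def pw (M : ℕ) (z : G) : PP G M := ⟨fun n => z ^ n, Q_line M z, by simp⟩

theorem diag_mem {M : ℕ} (g : PP G M) (hg : g ∈ commutator (PP G M)) :
    ∃ b : ℤ × ℤ → G, Sg M 1 b ∧ ∀ n : ℤ, b (n, n) = g.1 n := by
  let D : Subgroup (PP G M) :=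
    { carrier := {g | ∃ b : ℤ × ℤ → G, Sg M 1 b ∧ ∀ n : ℤ, b (n, n) = g.1 n}
      mul_mem' := by
        rintro x y ⟨b, hb, hbx⟩ ⟨c, hc, hcy⟩
        exact ⟨_, hb.mul hc, fun n => by simp [hbx, hcy]⟩
      one_mem' := ⟨fun _ => 1, ⟨Q_one sp _ _ _, fun _ => rfl, fun _ => rfl, fun _ => one_mem _⟩,
        fun n => by simp⟩
      inv_mem' := by
        rintro x ⟨b, hb, hbx⟩
        exact ⟨_, hb.inv, fun n => by simp [hbx]⟩ }
  have : commutator (PP G M) ≤ D := by
    rw [commutator_def, Subgroup.commutator_le]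
    intro x _ y _
    refine ⟨fun v => ⁅x.1 v.1, y.1 v.2⁆, ⟨?_, fun n => ?_, fun n => ?_, fun v => Subgroup.mem_top _⟩,
      fun n => ?_⟩
    · have h1 := Q_comp sl sp (Fil G) (fun v => v.1) (fun v => v.1) (fun s x => rfl) M 0 _ x.2.1
      have h2 := Q_comp sl sp (Fil G) (fun v => v.2) (fun v => v.2) (fun s x => rfl) M 0 _ y.2.1
      exact Q_commutator sp h1 h2
    · simp [y.2.2]
    · simp [x.2.2]
    · simp [commutatorElement_def]
  exact this hg

/-- **The sequence `n ↦ z ^ n` is not in the commutator subgroup.** -/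
theorem pw_not_mem {M : ℕ} (hM : Fil G M = ⊥) (d p : ℕ)
    (hp : ∀ j, 2 ≤ j → j < M → IsCoprime ((d : ℤ) ^ j - d) p)
    (z : G) (N : ℕ) (hz : z ^ (p ^ N) = 1) (h : pw M z ∈ commutator (PP G M)) : z = 1 := by
  obtain ⟨b, hb, hd⟩ := diag_mem _ h
  exact key hM d p hp z N hz b hb hd

end main

end Pool.Agent.N36.UG
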