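import Pool.Agent.N36.UG.Grp

/-!
# The universal group
-/

set_option autoImplicit false

namespace Pool.Agent.N36.UG

open scoped DirectSum

/-- Structure of a finite abelian group killed by `p ^ n` with at most `p ^ B` elements. -/
theorem exists_struct {p n B : ℕ} (hp : p.Prime) (W : Type) [AddCommGroup W] [Finite W]
    (hc : Nat.card W ≤ p ^ B) (hk : ∀ w : W, p ^ n • w = 0) :
    ∃ (ι : Type) (_ : Fintype ι) (e : ι → ℕ), (∀ i, e i ≤ n) ∧ Fintype.card ι ≤ B ∧
      Nonempty (W ≃+ ∀ i, ZMod (p ^ e i)) := by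
  classical
  obtain ⟨ι, hι, m, hm, ⟨φ⟩⟩ := AddCommGroup.equiv_directSum_zmod_of_finite' W
  let ψ : W ≃+ ∀ i, ZMod (m i) := φ.trans (DirectSum.addEquivProd fun i => ZMod (m i))
  have hdvd : ∀ i, m i ∣ p ^ n := by
    intro i
    have h1 := hk (ψ.symm (Pi.single i 1))
    have h2 := congrArg ψ h1
    rw [map_nsmul, map_zero, AddEquiv.apply_symm_apply] at h2
    have h3 := congrFun h2 i
    rw [Pi.smul_apply, Pi.single_eq_same, nsmul_eq_mul, mul_one] at h3
    exact (ZMod.natCast_eq_zero_iff _ _).1 h3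
  have he : ∀ i, ∃ e, e ≤ n ∧ m i = p ^ e := fun i => (Nat.dvd_prime_pow hp).1 (hdvd i)
  choose e he1 he2 using he
  obtain rfl : m = fun i => p ^ e i := funext he2
  refine ⟨ι, hι, e, he1, ?_, ⟨ψ⟩⟩
  have hne : ∀ i, NeZero (p ^ e i) := fun i => ⟨(pow_pos hp.pos _).ne'⟩
  have hcard : Nat.card W = ∏ i, p ^ e i := by
    rw [Nat.card_congr ψ.toEquiv, Nat.card_pi]
    exact Finset.prod_congr rfl fun i _ => Nat.card_zmod _
  have h1 : p ^ Fintype.card ι ≤ ∏ i, p ^ e i := by
    rw [← Finset.card_univ, ← Finset.prod_const]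
    refine Finset.prod_le_prod' fun i _ => ?_
    have h2 := hm i
    have h3 : e i ≠ 0 := by
      intro h
      simp only [h, pow_zero] at h2
      omega
    calc p = p ^ 1 := (pow_one p).symm
      _ ≤ p ^ e i := Nat.pow_le_pow_right hp.pos (by omega)
  have h2 : p ^ Fintype.card ι ≤ p ^ B := h1.trans (hcard ▸ hc)
  exact (Nat.pow_le_pow_iff_right hp.one_lt).1 h2

/-- the universal abelian group -/
abbrev VV (p n B : ℕ) : Type := ∀ x : Fin B × Fin (n + 1), ZMod (p ^ (x.2 : ℕ))

/-- `W` is a direct summand of the universal abelian group. -/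
theorem exists_inj_proj {p n B : ℕ} (ι : Type) [Fintype ι] (e : ι → ℕ)
    (he : ∀ i, e i ≤ n) (hB : Fintype.card ι ≤ B) :
    ∃ (u : (∀ i, ZMod (p ^ e i)) →+ VV p n B) (v : VV p n B →+ (∀ i, ZMod (p ^ e i))),
      ∀ w, v (u w) = w := by
  classical
  let κ : ι → Fin B × Fin (n + 1) := fun i =>
    (Fin.castLE hB (Fintype.equivFin ι i), ⟨e i, Nat.lt_succ_of_le (he i)⟩)
  have hκ : Function.Injective κ := by
    intro i j h
    have h1 := congrArg Prod.fst h
    exact (Fintype.equivFin ι).injective (Fin.castLE_injective hB h1)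
  let v : VV p n B →+ (∀ i, ZMod (p ^ e i)) :=
    { toFun := fun x i => x (κ i)
      map_zero' := rfl
      map_add' := fun _ _ => rfl }
  let u : (∀ i, ZMod (p ^ e i)) →+ VV p n B :=
    { toFun := fun w => ∑ i, Pi.single (κ i) (w i)
      map_zero' := by simp
      map_add' := fun x y => by
        rw [← Finset.sum_add_distrib]
        refine Finset.sum_congr rfl fun i _ => ?_
        exact Pi.single_add _ _ _ }
  refine ⟨u, v, fun w => ?_⟩
  funext i
  change (∑ j, (Pi.single (κ j) (w j) : VV p n B)) (κ i) = w i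
  rw [Finset.sum_apply, Finset.sum_eq_single i]
  · exact Pi.single_eq_same _ _
  · intro j _ hj
    exact Pi.single_eq_of_ne (fun h => hj (hκ h.symm)) _
  · intro h; exact absurd (Finset.mem_univ i) h

/-- automorphisms extend from a direct summand -/
def extAut {W V : Type} [AddCommGroup W] [AddCommGroup V] (u : W →+ V) (v : V →+ W)
    (h : ∀ w, v (u w) = w) : MulAut (Multiplicative W) →* MulAut (Multiplicative V) where
  toFun α :=
    { toFun := fun x => Multiplicative.ofAdd (Multiplicative.toAdd x - u (v (Multiplicative.toAdd x)) +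
        u (Multiplicative.toAdd (α (Multiplicative.ofAdd (v (Multiplicative.toAdd x))))))
      invFun := fun x => Multiplicative.ofAdd (Multiplicative.toAdd x - u (v (Multiplicative.toAdd x)) +
        u (Multiplicative.toAdd (α.symm (Multiplicative.ofAdd (v (Multiplicative.toAdd x))))))
      left_inv := by
        intro x
        simp [h]
      right_inv := by
        intro x
        simp [h]
      map_mul' := by
        intro x y
        apply Multiplicative.toAdd.injective
        simp only [toAdd_mul, toAdd_ofAdd, map_add, ofAdd_add, map_mul]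
        abel }
  map_one' := by
    apply MulEquiv.ext
    intro x
    apply Multiplicative.toAdd.injective
    change Multiplicative.toAdd x - u (v (Multiplicative.toAdd x)) + u (v (Multiplicative.toAdd x)) = _
    simp
  map_mul' α β := by
    apply MulEquiv.ext
    intro x
    apply Multiplicative.toAdd.injective
    simp [h]

theorem extAut_injective {W V : Type} [AddCommGroup W] [AddCommGroup V] (u : W →+ V) (v : V →+ W)
    (h : ∀ w, v (u w) = w) : Function.Injective (extAut u v h) := by
  intro α β hab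
  apply MulEquiv.ext
  intro w
  have h1 := congrArg (fun γ : MulAut (Multiplicative V) =>
    Multiplicative.toAdd (γ (Multiplicative.ofAdd (u (Multiplicative.toAdd w))))) hab
  have h2 : ∀ γ : MulAut (Multiplicative W), Multiplicative.toAdd ((extAut u v h γ)
      (Multiplicative.ofAdd (u (Multiplicative.toAdd w)))) = u (Multiplicative.toAdd (γ w)) := by
    intro γ
    change u (Multiplicative.toAdd w) - u (v (u (Multiplicative.toAdd w))) +
      u (Multiplicative.toAdd (γ (Multiplicative.ofAdd (v (u (Multiplicative.toAdd w)))))) = _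
    rw [h]; simp
  simp only [h2] at h1
  have h3 := congrArg v h1
  rw [h, h] at h3
  exact Multiplicative.toAdd.injective h3

/-- the universal group -/
abbrev UU (p n B : ℕ) : Type := MulAut (Multiplicative (VV p n B))

section card
variable {p n B : ℕ}

theorem card_VV_le (hp : p.Prime) : Finite (VV p n B) ∧ Nat.card (VV p n B) ≤ p ^ (n * (B * (n + 1))) := by
  classical
  have hne : ∀ x : Fin B × Fin (n + 1), NeZero (p ^ (x.2 : ℕ)) := fun i => ⟨(pow_pos hp.pos _).ne'⟩
  refine ⟨inferInstance, ?_⟩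
  rw [Nat.card_pi]
  calc ∏ x : Fin B × Fin (n + 1), Nat.card (ZMod (p ^ (x.2 : ℕ)))
      ≤ ∏ _x : Fin B × Fin (n + 1), p ^ n := by
        refine Finset.prod_le_prod' fun x _ => ?_
        rw [Nat.card_zmod]
        exact Nat.pow_le_pow_right hp.pos (Nat.lt_succ_iff.1 x.2.2)
    _ = p ^ (n * (B * (n + 1))) := by
        rw [Finset.prod_const, Finset.card_univ, Fintype.card_prod, Fintype.card_fin,
          Fintype.card_fin, ← pow_mul]

theorem UU_inj (hp : p.Prime) : Function.Injective
    (fun (α : UU p n B) (j : Fin B × Fin (n + 1)) =>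
      Multiplicative.toAdd (α (Multiplicative.ofAdd (Pi.single j 1)))) := by
  classical
  have hne : ∀ x : Fin B × Fin (n + 1), NeZero (p ^ (x.2 : ℕ)) := fun i => ⟨(pow_pos hp.pos _).ne'⟩
  intro α β hab
  have h1 : ∀ j (c : ℕ), α (Multiplicative.ofAdd (Pi.single j (c : ZMod (p ^ (j.2 : ℕ))))) =
      β (Multiplicative.ofAdd (Pi.single j (c : ZMod (p ^ (j.2 : ℕ))))) := by
    intro j c
    have e : (Pi.single j (c : ZMod (p ^ (j.2 : ℕ))) : VV p n B) =
        c • (Pi.single j 1 : VV p n B) := by
      rw [← Pi.single_smul, nsmul_eq_mul, mul_one]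
    rw [e, ofAdd_nsmul, map_pow, map_pow]
    have := congrFun hab j
    have := Multiplicative.toAdd.injective this
    rw [this]
  apply MulEquiv.ext
  intro x
  have hx : x = ∏ j, Multiplicative.ofAdd (Pi.single j (Multiplicative.toAdd x j) : VV p n B) := by
    apply Multiplicative.toAdd.injective
    rw [toAdd_prod]
    simp only [toAdd_ofAdd]
    exact (Finset.univ_sum_single _).symm
  rw [hx, map_prod, map_prod]
  refine Finset.prod_congr rfl fun j _ => ?_
  have := h1 j (Multiplicative.toAdd x j).val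
  rwa [ZMod.natCast_zmod_val] at this

theorem card_UU_le (hp : p.Prime) : Finite (UU p n B) ∧
    Nat.card (UU p n B) ≤ p ^ (n * (B * (n + 1)) ^ 2) := by
  obtain ⟨hf, hc⟩ := card_VV_le (n := n) (B := B) hp
  have hfin : Finite (UU p n B) := Finite.of_injective _ (UU_inj (n := n) (B := B) hp)
  refine ⟨hfin, ?_⟩
  have h1 := Nat.card_le_card_of_injective _ (UU_inj (n := n) (B := B) hp)
  refine h1.trans ?_
  rw [Nat.card_fun, Nat.card_eq_fintype_card (α := Fin B × Fin (n + 1)), Fintype.card_prod,
    Fintype.card_fin, Fintype.card_fin]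
  calc Nat.card (VV p n B) ^ (B * (n + 1)) ≤ (p ^ (n * (B * (n + 1)))) ^ (B * (n + 1)) :=
        Nat.pow_le_pow_left hc _
    _ = p ^ (n * (B * (n + 1)) ^ 2) := by rw [← pow_mul]; congr 1; ring

end card

/-- **Every group of order `p ^ n`, `p > n`, embeds in the universal group.** -/
theorem embeds {p n : ℕ} (hp : p.Prime) (hn : n < p) (H : Type) [Group H] (hH : Nat.card H = p ^ n) :
    ∃ f : H →* UU p n (n * R n), Function.Injective f := by
  have : Finite H := Nat.finite_of_card_ne_zero (by rw [hH]; exact (pow_pos hp.pos n).ne')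
  obtain ⟨W, _, _, hc, hk, ρ, hρ⟩ := exists_module hp hn hH
  obtain ⟨ι, _, e, he, hι, ⟨φ⟩⟩ := exists_struct hp W hc hk
  obtain ⟨u, v, huv⟩ := exists_inj_proj (p := p) ι e he hι
  have h : ∀ w, (φ.symm.toAddMonoidHom.comp v) ((u.comp φ.toAddMonoidHom) w) = w := fun w => by
    simp [huv]
  exact ⟨(extAut _ _ h).comp ρ, (extAut_injective _ _ h).comp hρ⟩

/-- every finite group of order `p ^ n` embeds in `U` -/
def IsCover (p n : ℕ) (U : Type) [Group U] : Prop :=
  ∀ (H : Type) [Group H], Nat.card H = p ^ n → ∃ f : H →* U, Function.Injective f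

theorem cover_large {p n : ℕ} (hp : p.Prime) (hn : n < p) : IsCover p n (UU p n (n * R n)) :=
  fun H _ hH => embeds hp hn H hH

theorem bound_large (n : ℕ) : n * ((n * R n) * (n + 1)) ^ 2 ≤ (n + 1) ^ (2 * n + 5) := by
  have h1 := R_le n
  calc n * ((n * R n) * (n + 1)) ^ 2 ≤ (n + 1) * (((n + 1) * (n + 1) ^ n) * (n + 1)) ^ 2 := by
        gcongr <;> omega
    _ = (n + 1) ^ (2 * n + 5) := by ring

theorem cover_small {p : ℕ} (hp : p.Prime) (n : ℕ) : IsCover p n (Equiv.Perm (Fin (p ^ n))) := by
  intro H _ hH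
  have : Finite H := Nat.finite_of_card_ne_zero (by rw [hH]; exact (pow_pos hp.pos n).ne')
  let e : H ≃ Fin (p ^ n) := (Finite.equivFin H).trans (finCongr hH)
  refine ⟨e.permCongrHom.toMonoidHom.comp (MulAction.toPermHom H H), ?_⟩
  exact e.permCongrHom.injective.comp MulAction.toPerm_injective

theorem bound_small {p n : ℕ} (hp : p.Prime) (hn : p ≤ n) :
    Nat.card (Equiv.Perm (Fin (p ^ n))) ≤ p ^ ((n + 1) ^ (2 * n + 5)) := by
  rw [Nat.card_perm, Nat.card_eq_fintype_card, Fintype.card_fin]
  calc (p ^ n).factorial ≤ (p ^ n) ^ (p ^ n) := Nat.factorial_le_pow _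
    _ = p ^ (n * p ^ n) := by rw [← pow_mul]
    _ ≤ p ^ ((n + 1) ^ (2 * n + 5)) := by
        apply Nat.pow_le_pow_right hp.pos
        calc n * p ^ n ≤ (n + 1) * (n + 1) ^ n := by gcongr <;> omega
          _ = (n + 1) ^ (n + 1) := by ring
          _ ≤ (n + 1) ^ (2 * n + 5) := Nat.pow_le_pow_right (Nat.succ_pos n) (by omega)

/-- the order of a minimum `p ^ n`-cover -/
noncomputable def mcover (p n : ℕ) : ℕ :=
  sInf {k | ∃ (U : Type) (_ : Group U), Finite U ∧ Nat.card U = k ∧ IsCover p n U}

theorem mcover_spec {p : ℕ} (hp : p.Prime) (n : ℕ) :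
    ∃ (U : Type) (_ : Group U), Finite U ∧ Nat.card U = mcover p n ∧ IsCover p n U := by
  have : (mcover p n) ∈
      {k | ∃ (U : Type) (_ : Group U), Finite U ∧ Nat.card U = k ∧ IsCover p n U} :=
    Nat.sInf_mem ⟨_, Equiv.Perm (Fin (p ^ n)), inferInstance, inferInstance, rfl, cover_small hp n⟩
  exact this

/-- **The bound.** -/
theorem mcover_le {p : ℕ} (hp : p.Prime) (n : ℕ) : mcover p n ≤ p ^ ((n + 1) ^ (2 * n + 5)) := by
  rcases Nat.lt_or_ge n p with h | h
  · obtain ⟨h1, h2⟩ := card_UU_le (n := n) (B := n * R n) hp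
    refine le_trans (Nat.sInf_le ⟨UU p n (n * R n), inferInstance, h1, rfl, cover_large hp h⟩) ?_
    exact h2.trans (Nat.pow_le_pow_right hp.pos (bound_large n))
  · exact le_trans (Nat.sInf_le ⟨Equiv.Perm (Fin (p ^ n)), inferInstance, inferInstance, rfl,
      cover_small hp n⟩) (bound_small hp h)

end Pool.Agent.N36.UG
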